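import Mathlib
import Pool.Agent.U605.ST.Rho

set_option autoImplicit false

/-!
# Restriction to exceptional curves has maximal rank: many equal multiplicities and a packed tail

Let `n ≥ 36` of the numbers `m i` be equal to `M`, `n ≤ 4 (√n - 5) M` (so `M` may be of the order
`√n / 4`), let `tail` be the set of the others which are at least `2`, and suppose that the squares of
the sizes `m i`, `i` in the tail, fit into a rectangle `T × H` which fits beside the `n` numbers `M`
(`PackedTail`). Let `X` be the blow-up of the complex projective plane at general points, let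
`D = d H - ∑ m i E i`, and let `k` be an index such that `m` with `m k` replaced by `m k + 1` is also
of this kind; for example a simple point or a point of the tail, if there is room. Then

`ρ : H⁰(O_X(D)) → H⁰(O_E(D|E))`, `E = E k`,

is injective or surjective, in every degree `d`. The points are those of one nonempty open set, the
same for all `d` and `k`.
-/

namespace Pool.Agent.Results.MP_5bb273_ag.PackedTailMaximalRank

open MvPolynomial

/-- The tail: the points whose multiplicity is at least `2` and different from `M`. -/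
def tail {h : ℕ} (M : ℕ) (m : Fin h → ℕ) : Finset (Fin h) :=
  Finset.univ.filter fun i => 2 ≤ m i ∧ m i ≠ M

/-- The room beside `n` points of multiplicity `M`. -/
noncomputable def room (n M : ℕ) : ℝ := (3 * √(n : ℝ) - 5 - (n : ℝ) / (4 * M)) / 4

/-- `n ≥ 36` equal numbers `M`, numbers `0` and `1`, and a packed tail. -/
def PackedTail {h : ℕ} (v : Fin h → ℕ) : Prop :=
  ∃ n M T H : ℕ, 36 ≤ n ∧ (Finset.univ.filter fun i => v i = M).card = n ∧
    (n : ℝ) ≤ 4 * (√(n : ℝ) - 5) * M ∧
    (∀ i ∈ tail M v, v i ≤ T) ∧ 2 * ∑ i ∈ tail M v, v i ^ 2 + T ^ 2 ≤ T * H ∧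
    ((H ≤ 2 * M ∧ (T : ℝ) ≤ room n M) ∨ room n M * H ≤ (2 * room n M - T) * M) ∧
    ∑ i ∈ tail M v, (v i : ℝ) * (v i + 1) ≤ (√(n : ℝ) - 5) * M

/-- The space `H⁰(O_X(d H - ∑ m i E i))`: the forms of degree `d` vanishing to order at least `m i`
at the points `(P i 0 : P i 1 : 1)`. -/
noncomputable def forms {h : ℕ} (P : Fin h → Fin 2 → ℂ) (d : ℕ) (m : Fin h → ℕ) :
    Submodule ℂ (MvPolynomial (Fin 3) ℂ) :=
  homogeneousSubmodule (Fin 3) ℂ d ⊓
    Submodule.restrictScalars ℂ
      (⨅ i : Fin h, (Ideal.span {X 0 - C (P i 0) * X 2, X 1 - C (P i 1) * X 2} :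
        Ideal (MvPolynomial (Fin 3) ℂ)) ^ (m i))

/-- The restriction to the exceptional curve over the point `(p 0 : p 1 : 1)`, on forms vanishing to
order at least `a` there: the term of degree `a` of the local equation `F (x + p 0, y + p 1, 1)`. The
sections of the line bundle of degree `a` on the exceptional curve are the binary forms of degree
`a`. -/
noncomputable def restriction (p : Fin 2 → ℂ) (a : ℕ) :
    MvPolynomial (Fin 3) ℂ →ₗ[ℂ] MvPolynomial (Fin 2) ℂ :=
  (homogeneousComponent a).comp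
    (aeval ![X 0 + C (p 0), X 1 + C (p 1), 1] :
      MvPolynomial (Fin 3) ℂ →ₐ[ℂ] MvPolynomial (Fin 2) ℂ).toLinearMap

/-- `ρ` has maximal rank, for `E = E k`: it is injective or surjective. -/
def MaximalRank {h : ℕ} (P : Fin h → Fin 2 → ℂ) (d : ℕ) (m : Fin h → ℕ) (k : Fin h) : Prop :=
  (∀ F ∈ forms P d m, restriction (P k) (m k) F = 0 → F = 0) ∨
    ∀ G : MvPolynomial (Fin 2) ℂ, G.IsHomogeneous (m k) →
      ∃ F ∈ forms P d m, restriction (P k) (m k) F = G

/-- the expected dimension, for all degrees -/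
theorem expDim {h : ℕ} {v : Fin h → ℕ} (hv : PackedTail v) :
    ∃ F : MvPolynomial (Fin h × Fin 2) ℂ, F ≠ 0 ∧ ∀ P : Fin h → Fin 2 → ℂ,
      eval (fun ij : Fin h × Fin 2 => P ij.1 ij.2) F ≠ 0 →
        ∀ d, Pool.Agent.H932R3.ExpDim ℂ v P d := by
  obtain ⟨n, M, T, H, hn, hcard, hM, hT, hTH, hroom, hsum⟩ := hv
  obtain ⟨F, hF, hF'⟩ := Pool.Agent.U605.ST.expDim_packed v hn hM hcard hT hTH hroom hsum
  refine ⟨F.map (algebraMap ℚ ℂ), Pool.Agent.H932R3.map_ne_zero_of hF, fun P hP d => ?_⟩
  rw [eval_map] at hP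
  exact hF' P hP d

theorem result (h : ℕ) (m : Fin h → ℕ) (hm : PackedTail m) :
    ∃ F : MvPolynomial (Fin h × Fin 2) ℂ, F ≠ 0 ∧
      ∀ P : Fin h → Fin 2 → ℂ, eval (fun ij : Fin h × Fin 2 => P ij.1 ij.2) F ≠ 0 →
        ∀ (d : ℕ) (k : Fin h), PackedTail (Function.update m k (m k + 1)) →
          MaximalRank P d m k := by
  classical
  obtain ⟨F0, hF0, h0⟩ := expDim hm
  have hex : ∀ k : Fin h, ∃ F : MvPolynomial (Fin h × Fin 2) ℂ, F ≠ 0 ∧
      (PackedTail (Function.update m k (m k + 1)) → ∀ P : Fin h → Fin 2 → ℂ,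
        eval (fun ij : Fin h × Fin 2 => P ij.1 ij.2) F ≠ 0 →
          ∀ d, Pool.Agent.H932R3.ExpDim ℂ (Function.update m k (m k + 1)) P d) := by
    intro k
    by_cases hk : PackedTail (Function.update m k (m k + 1))
    · obtain ⟨F, hF, h1⟩ := expDim hk
      exact ⟨F, hF, fun _ => h1⟩
    · exact ⟨1, one_ne_zero, fun h1 => absurd h1 hk⟩
  choose F hF h1 using hex
  refine ⟨F0 * ∏ k, F k, mul_ne_zero hF0 (Finset.prod_ne_zero_iff.2 fun k _ => hF k),
    fun P hP d k hk => ?_⟩
  rw [map_mul, map_prod] at hP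
  have h2 := h0 P (left_ne_zero_of_mul hP) d
  have h3 := h1 k hk P (Finset.prod_ne_zero_iff.1 (right_ne_zero_of_mul hP) k (Finset.mem_univ k)) d
  exact Pool.Agent.U605.ST.maxrank h2 h3

end Pool.Agent.Results.MP_5bb273_ag.PackedTailMaximalRank
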